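import Pool.Agent.Helper41.Girth4.Stmts
import Pool.Agent.Helper41.Girth4.Prob

/-!
# Packet C: one vertex with i.i.d. children
-/

namespace Pool.Agent.Helper21.Girth4

open Finset Pool.Agent.Helper41.Girth4

theorem cnt_eq_card {m : ℕ} {A : Fin m → Prop} {S : Finset (Fin m)} (h : ∀ k, A k ↔ k ∈ S) :
    cnt A = S.card := by
  classical
  unfold cnt
  rw [Nat.card_eq_fintype_card, Fintype.card_subtype]
  congr 1
  ext k
  simp [h k]

theorem clk_update {P : Par} (u : Fin P.K → Fin P.N) (i : Fin P.K) (x : Fin P.N) {t : ℕ}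
    (ht : t ≠ i) : clk P (Function.update u i x) t = clk P u t := by
  unfold clk
  split_ifs with h
  · rw [Function.update_of_ne]
    intro hh
    exact ht (by rw [← hh])
  · rfl

/-- Independence of one clock coordinate. -/
theorem indep {K N : ℕ} {Y : Type*} [Finite Y] [Nonempty Y] [NeZero N] (i : Fin K)
    (Φ : (Fin K → Fin N) × Y → Prop)
    (hΦ : ∀ u x y, Φ (Function.update u i x, y) ↔ Φ (u, y)) (B : Fin N → Prop) :
    Pr (fun z : (Fin K → Fin N) × Y => Φ z ∧ B (z.1 i)) = Pr Φ * Pr B := by
  classical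
  let e : (Fin K → Fin N) × Y ≃ (({j : Fin K // j ≠ i} → Fin N) × Y) × Fin N :=
    { toFun := fun z => ((fun j => z.1 j, z.2), z.1 i)
      invFun := fun z => (fun j => if h : j = i then z.2 else z.1.1 ⟨j, h⟩, z.1.2)
      left_inv := by
        rintro ⟨u, y⟩
        ext j
        · simp only
          split_ifs with h
          · rw [h]
          · rfl
        · rfl
      right_inv := by
        rintro ⟨⟨v, y⟩, x⟩
        ext j
        · simp [j.2]
        · rfl
        · simp }
  let Φ' : (({j : Fin K // j ≠ i} → Fin N) × Y) → Prop := fun z => Φ (e.symm (z, 0))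
  have key : ∀ z : (Fin K → Fin N) × Y, Φ z ↔ Φ' (e z).1 := by
    rintro ⟨u, y⟩
    show Φ (u, y) ↔ Φ (e.symm ((fun j => u j, y), 0))
    have : e.symm ((fun j : {j : Fin K // j ≠ i} => u j, y), 0) = (Function.update u i 0, y) := by
      show ((fun j => if h : j = i then (0 : Fin N) else u j), y) = _
      congr 1
      ext j
      by_cases h : j = i
      · subst h; simp
      · simp [h]
    rw [this, hΦ]
  have h1 : Pr (fun z : (Fin K → Fin N) × Y => Φ z ∧ B (z.1 i))
      = Pr (fun z : (({j : Fin K // j ≠ i} → Fin N) × Y) × Fin N => Φ' z.1 ∧ B z.2) := by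
    rw [← Pr_equiv e]
    apply Pr_congr
    intro z
    rw [key z]
    rfl
  have h2 : Pr Φ = Pr Φ' := by
    rw [← Pr_fst (β := Fin N) Φ', ← Pr_equiv e]
    apply Pr_congr
    intro z
    rw [key z]
  rw [h1, h2, Pr_prod]

/-- Independence of one clock, in terms of `clk`. -/
theorem indep_clk {P : Par} {Y : Type*} [Finite Y] [Nonempty Y] {T : ℕ} (hT : T < P.K)
    (Φ : (Fin P.K → Fin P.N) × Y → Prop)
    (hΦ : ∀ u x y, Φ (Function.update u ⟨T, hT⟩ x, y) ↔ Φ (u, y)) {θ : ℕ} (hθ : θ ≤ P.N) :
    Pr (fun z : (Fin P.K → Fin P.N) × Y => Φ z ∧ clk P z.1 T < θ) = Pr Φ * ((θ : ℝ) / P.N) := by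
  have h := indep (⟨T, hT⟩ : Fin P.K) Φ hΦ (fun x => (x : ℕ) < θ)
  have h2 : Pr (fun x : Fin P.N => (x : ℕ) < θ) = (θ : ℝ) / P.N := by
    classical
    rw [Pr_eq_card, Fintype.card_fin]
    congr 2
    rw [Fin.card_filter_val_lt]
    exact min_eq_right hθ
  rw [h2] at h
  rw [← h]
  apply Pr_congr
  intro z
  simp [clk, hT]

/-- `V_T` -/
def VT (P : Par) {Ω : Type} (A S : ℕ → Ω → Prop) (m : ℕ) (n : ℕ → ℕ) (T : ℕ)
    (z : (Fin P.K → Fin P.N) × (Fin m → Ω)) : Prop :=
  ∀ t < T, ¬ (clk P z.1 t < P.thr t (cnt (fun k => A t (z.2 k)) + n t)) ∧ ∀ k, ¬ S t (z.2 k)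

theorem VT_update {P : Par} {Ω : Type} (A S : ℕ → Ω → Prop) (m : ℕ) (n : ℕ → ℕ) {T : ℕ}
    (hT : T < P.K) (u : Fin P.K → Fin P.N) (x : Fin P.N) (y : Fin m → Ω) :
    VT P A S m n T (Function.update u ⟨T, hT⟩ x, y) ↔ VT P A S m n T (u, y) := by
  unfold VT
  apply forall_congr'
  intro t
  apply forall_congr'
  intro ht
  rw [clk_update _ _ _ (t := t) (by simpa using ht.ne)]

/-- The event that the alive set is `S₀` and the events `E k` hold. -/
def Ev (P : Par) {Ω : Type} (A S : ℕ → Ω → Prop) (m : ℕ) (n : ℕ → ℕ) (T : ℕ)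
    (S₀ : Finset (Fin m)) (E : Fin m → Ω → Prop)
    (z : (Fin P.K → Fin P.N) × (Fin m → Ω)) : Prop :=
  VT P A S m n T z ∧ (∀ k, A T (z.2 k) ↔ k ∈ S₀) ∧ ∀ k ∈ S₀, E k (z.2 k)

theorem sum_superset {m : ℕ} (S' : Finset (Fin m)) (F : ℕ → ℝ) :
    ∑ S ∈ Finset.univ.filter (fun S : Finset (Fin m) => S' ⊆ S), F S.card
      = ∑ j ∈ Finset.Icc S'.card m, ((m - S'.card).choose (j - S'.card) : ℝ) * F j := by
  classical
  have hS : S'.card ≤ m := by simpa using Finset.card_le_univ S'
  have h1 : ∑ S ∈ Finset.univ.filter (fun S : Finset (Fin m) => S' ⊆ S), F S.card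
      = ∑ R ∈ (Finset.univ \ S').powerset, F (S'.card + R.card) := by
    symm
    apply Finset.sum_bij (fun R _ => S' ∪ R)
    · intro R _
      simp
    · intro R hR R' hR' h
      rw [Finset.mem_powerset] at hR hR'
      have hd : Disjoint S' R := by
        rw [Finset.disjoint_left]
        intro a ha hb
        exact (Finset.mem_sdiff.1 (hR hb)).2 ha
      have hd' : Disjoint S' R' := by
        rw [Finset.disjoint_left]
        intro a ha hb
        exact (Finset.mem_sdiff.1 (hR' hb)).2 ha
      have e1 : (S' ∪ R) \ S' = R := by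
        rw [Finset.union_sdiff_cancel_left hd]
      have e2 : (S' ∪ R') \ S' = R' := by
        rw [Finset.union_sdiff_cancel_left hd']
      rw [← e1, ← e2]
      exact congrArg (· \ S') h
    · intro S hS
      rw [Finset.mem_filter] at hS
      refine ⟨S \ S', ?_, ?_⟩
      · rw [Finset.mem_powerset]
        exact Finset.sdiff_subset_sdiff (Finset.subset_univ _) le_rfl
      · exact Finset.union_sdiff_of_subset hS.2
    · intro R hR
      rw [Finset.mem_powerset] at hR
      have hd : Disjoint S' R := by
        rw [Finset.disjoint_left]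
        intro a ha hb
        exact (Finset.mem_sdiff.1 (hR hb)).2 ha
      rw [Finset.card_union_of_disjoint hd]
  rw [h1, Finset.sum_powerset_apply_card (fun k => F (S'.card + k))]
  have hc : (Finset.univ \ S').card = m - S'.card := by
    rw [Finset.card_sdiff_of_subset (Finset.subset_univ _)]
    simp
  rw [hc]
  symm
  apply Finset.sum_bij (fun j _ => j - S'.card)
  · intro j hj
    rw [Finset.mem_Icc] at hj
    rw [Finset.mem_range]
    omega
  · intro j hj j' hj' h
    rw [Finset.mem_Icc] at hj hj'
    have h' : j - S'.card = j' - S'.card := h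
    omega
  · intro k hk
    rw [Finset.mem_range] at hk
    exact ⟨S'.card + k, by rw [Finset.mem_Icc]; omega, by simp⟩
  · intro j hj
    rw [Finset.mem_Icc] at hj
    rw [nsmul_eq_mul, Nat.add_sub_cancel' hj.1]

theorem set_version (P : Par) {Ω : Type} [Finite Ω] [Nonempty Ω] (A S : ℕ → Ω → Prop)
    (hA0 : ∀ x, A 0 x) (hSA : ∀ s x, S s x → A s x)
    (hAS : ∀ s x, A (s + 1) x → A s x ∧ ¬ S s x) (m : ℕ) (n : ℕ → ℕ) (δ : ℕ → ℝ) :
    ∀ T : ℕ, T ≤ P.K → (∀ s < T, Pr (fun x => A s x ∧ ¬ S s x ∧ ¬ A (s + 1) x) = δ s) →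
      ∀ (E : Fin m → Ω → Prop), (∀ k x, E k x → A T x) → ∀ S₀ : Finset (Fin m),
        Pr (Ev P A S m n T S₀ E)
          = yG m (fun t i => pr P t (i + n t)) δ T S₀.card * ∏ k ∈ S₀, Pr (E k) := by
  classical
  intro T
  induction T with
  | zero =>
    intro _ _ E hE S₀
    have hnn : Nonempty (Fin P.K → Fin P.N) := ⟨fun _ => 0⟩
    by_cases hS : S₀ = Finset.univ
    · subst hS
      have h1 : Pr (Ev P A S m n 0 Finset.univ E)
          = Pr (fun z : (Fin P.K → Fin P.N) × (Fin m → Ω) => ∀ k, E k (z.2 k)) := by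
        apply Pr_congr
        intro z
        unfold Ev VT
        simp [hA0]
      rw [h1, Pr_snd (α := Fin P.K → Fin P.N) (fun y : Fin m → Ω => ∀ k, E k (y k)), Pr_pi]
      simp [yG]
    · have h1 : Pr (Ev P A S m n 0 S₀ E) = Pr (fun _ : (Fin P.K → Fin P.N) × (Fin m → Ω) => False) := by
        apply Pr_congr
        intro z
        unfold Ev
        simp only [iff_false]
        rintro ⟨_, h, _⟩
        apply hS
        ext k
        simp [← h k, hA0]
      rw [h1, Pr_false]
      have h2 : S₀.card ≠ m := by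
        intro h
        apply hS
        apply Finset.eq_univ_of_card
        simpa using h
      simp [yG, h2]
  | succ T ih =>
    intro hT hδ E hE S'
    have hT' : T < P.K := by omega
    set D : Ω → Prop := fun x => A T x ∧ ¬ S T x ∧ ¬ A (T + 1) x with hD
    set E' : Fin m → Ω → Prop := fun k x => if k ∈ S' then E k x else D x with hE'
    have hE'A : ∀ k x, E' k x → A T x := by
      intro k x h
      simp only [hE'] at h
      split_ifs at h with hk
      · exact (hAS T x (hE k x h)).1
      · exact h.1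
    have h1 : Pr (Ev P A S m n (T + 1) S' E)
        = ∑ S₀ ∈ Finset.univ.filter (fun S₀ : Finset (Fin m) => S' ⊆ S₀),
            Pr (fun z => Ev P A S m n (T + 1) S' E z ∧
              Finset.univ.filter (fun k => A T (z.2 k)) = S₀) := by
      apply Pr_fiber
      intro z hz
      rw [Finset.mem_filter]
      refine ⟨Finset.mem_univ _, ?_⟩
      intro k hk
      rw [Finset.mem_filter]
      refine ⟨Finset.mem_univ _, ?_⟩
      exact (hAS T _ ((hz.2.1 k).2 hk)).1
    rw [h1]
    have h2 : ∀ S₀ ∈ Finset.univ.filter (fun S₀ : Finset (Fin m) => S' ⊆ S₀),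
        Pr (fun z => Ev P A S m n (T + 1) S' E z ∧
              Finset.univ.filter (fun k => A T (z.2 k)) = S₀)
        = yG m (fun t i => pr P t (i + n t)) δ T S₀.card * (∏ k ∈ S', Pr (E k)) *
            δ T ^ (S₀.card - S'.card) * (1 - pr P T (S₀.card + n T)) := by
      intro S₀ hS₀
      rw [Finset.mem_filter] at hS₀
      have hsub := hS₀.2
      have h3 : Pr (fun z => Ev P A S m n (T + 1) S' E z ∧
              Finset.univ.filter (fun k => A T (z.2 k)) = S₀)
          = Pr (fun z => Ev P A S m n T S₀ E' z ∧ ¬ (clk P z.1 T < P.thr T (S₀.card + n T))) := by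
        apply Pr_congr
        intro z
        constructor
        · rintro ⟨⟨hV, hA, hEE⟩, hf⟩
          have hmem : ∀ k, A T (z.2 k) ↔ k ∈ S₀ := by
            intro k
            rw [← hf]
            simp
          refine ⟨⟨fun t ht => hV t (by omega), hmem, ?_⟩, ?_⟩
          · intro k hk
            simp only [hE']
            split_ifs with hkS
            · exact hEE k hkS
            · exact ⟨(hmem k).2 hk, (hV T (by omega)).2 k, fun h => hkS ((hA k).1 h)⟩
          · have := (hV T (by omega)).1
            rwa [cnt_eq_card hmem] at this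
        · rintro ⟨⟨hV, hmem, hEE⟩, hc⟩
          refine ⟨⟨?_, ?_, ?_⟩, ?_⟩
          · intro t ht
            rcases Nat.lt_succ_iff_lt_or_eq.1 ht with ht | rfl
            · exact hV t ht
            · refine ⟨by rwa [cnt_eq_card hmem], ?_⟩
              intro k hk
              have hk1 := (hmem k).1 (hSA _ _ hk)
              have hk2 := hEE k hk1
              simp only [hE'] at hk2
              split_ifs at hk2 with hkS
              · exact (hAS t _ (hE k _ hk2)).2 hk
              · exact hk2.2.1 hk
          · intro k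
            constructor
            · intro hk
              have hk1 := (hmem k).1 (hAS T _ hk).1
              have hk2 := hEE k hk1
              simp only [hE'] at hk2
              split_ifs at hk2 with hkS
              · exact hkS
              · exact absurd hk hk2.2.2
            · intro hk
              have hk2 := hEE k (hsub hk)
              simp only [hE', if_pos hk] at hk2
              exact hE k _ hk2
          · intro k hk
            have hk2 := hEE k (hsub hk)
            simp only [hE', if_pos hk] at hk2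
            exact hk2
          · ext k
            simp [hmem k]
      rw [h3, Pr_and_not, indep_clk hT' _ _ (P.hthr _ _), ih (by omega) (fun s hs => hδ s (by omega)) E' hE'A S₀]
      · have h4 : ∏ k ∈ S₀, Pr (E' k) = (∏ k ∈ S', Pr (E k)) * δ T ^ (S₀.card - S'.card) := by
          rw [← Finset.prod_sdiff hsub, mul_comm]
          congr 1
          · apply Finset.prod_congr rfl
            intro k hk
            congr 1
            funext x
            simp only [hE', if_pos hk]
          · rw [← Finset.card_sdiff_of_subset hsub]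
            apply Finset.prod_eq_pow_card
            intro k hk
            rw [← hδ T (by omega)]
            congr 1
            funext x
            simp only [hE', if_neg (Finset.mem_sdiff.1 hk).2, hD]
        rw [h4]
        unfold pr
        ring
      · intro u x y
        unfold Ev
        rw [VT_update]
    rw [Finset.sum_congr rfl h2]
    have h5 := sum_superset S' (fun j => yG m (fun t i => pr P t (i + n t)) δ T j *
      (∏ k ∈ S', Pr (E k)) * δ T ^ (j - S'.card) * (1 - pr P T (j + n T)))
    rw [h5]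
    show _ = stepY m (fun j => pr P T (j + n T)) (δ T)
      (yG m (fun t i => pr P t (i + n t)) δ T) S'.card * _
    unfold stepY
    rw [Finset.sum_mul]
    apply Finset.sum_congr rfl
    intro j _
    ring

theorem stmtVertex (P : Par) : StmtVertex P := by
  classical
  intro Ω _ _ A S hA0 hSA hAS m n δ T hT hδ E hE j hj
  have key : ∀ Ψ : (Fin P.K → Fin P.N) → Prop,
      Pr (fun z : (Fin P.K → Fin P.N) × (Fin m → Ω) =>
        (∀ t < T, ¬ (clk P z.1 t < P.thr t (cnt (fun k => A t (z.2 k)) + n t)) ∧
          ∀ k, ¬ S t (z.2 k)) ∧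
        cnt (fun k => A T (z.2 k)) = j ∧ (∀ k, A T (z.2 k) → E (z.2 k)) ∧ Ψ z.1)
      = ∑ S₀ ∈ Finset.powersetCard j (Finset.univ : Finset (Fin m)),
          Pr (fun z : (Fin P.K → Fin P.N) × (Fin m → Ω) =>
            Ev P A S m n T S₀ (fun _ => E) z ∧ Ψ z.1) := by
    intro Ψ
    rw [Pr_fiber _ (fun z => Finset.univ.filter (fun k => A T (z.2 k)))
      (s := Finset.powersetCard j (Finset.univ : Finset (Fin m)))]
    · apply Finset.sum_congr rfl
      intro S₀ hS₀
      rw [Finset.mem_powersetCard] at hS₀
      apply Pr_congr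
      intro z
      constructor
      · rintro ⟨⟨hV, hc, hEE, hΨ⟩, hf⟩
        have hmem : ∀ k, A T (z.2 k) ↔ k ∈ S₀ := by
          intro k
          rw [← hf]
          simp
        exact ⟨⟨hV, hmem, fun k hk => hEE k ((hmem k).2 hk)⟩, hΨ⟩
      · rintro ⟨⟨hV, hmem, hEE⟩, hΨ⟩
        refine ⟨⟨hV, ?_, fun k hk => hEE k ((hmem k).1 hk), hΨ⟩, ?_⟩
        · rw [cnt_eq_card hmem, hS₀.2]
        · ext k
          simp [hmem k]
    · rintro z ⟨_, hc, _⟩
      rw [Finset.mem_powersetCard]
      refine ⟨Finset.subset_univ _, ?_⟩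
      rw [← hc]
      symm
      apply cnt_eq_card
      intro k
      simp
  constructor
  · have h := key (fun _ => True)
    simp only [and_true] at h
    rw [h]
    have h2 : ∀ S₀ ∈ Finset.powersetCard j (Finset.univ : Finset (Fin m)),
        Pr (fun z : (Fin P.K → Fin P.N) × (Fin m → Ω) => Ev P A S m n T S₀ (fun _ => E) z)
          = yG m (fun t i => pr P t (i + n t)) δ T j * Pr E ^ j := by
      intro S₀ hS₀
      rw [Finset.mem_powersetCard] at hS₀
      have := set_version P A S hA0 hSA hAS m n δ T hT hδ (fun _ => E) (fun _ => hE) S₀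
      rw [this, Finset.prod_const, hS₀.2]
    rw [Finset.sum_congr rfl h2, Finset.sum_const, Finset.card_powersetCard, Finset.card_univ,
      Fintype.card_fin, nsmul_eq_mul]
    ring
  · intro hTK θ hθ
    rw [key (fun u => clk P u T < θ)]
    have h2 : ∀ S₀ ∈ Finset.powersetCard j (Finset.univ : Finset (Fin m)),
        Pr (fun z : (Fin P.K → Fin P.N) × (Fin m → Ω) =>
            Ev P A S m n T S₀ (fun _ => E) z ∧ clk P z.1 T < θ)
          = yG m (fun t i => pr P t (i + n t)) δ T j * Pr E ^ j * ((θ : ℝ) / P.N) := by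
      intro S₀ hS₀
      rw [Finset.mem_powersetCard] at hS₀
      have := set_version P A S hA0 hSA hAS m n δ T hT hδ (fun _ => E) (fun _ => hE) S₀
      rw [indep_clk hTK _ _ hθ, this, Finset.prod_const, hS₀.2]
      intro u x y
      unfold Ev
      rw [VT_update]
    rw [Finset.sum_congr rfl h2, Finset.sum_const, Finset.card_powersetCard, Finset.card_univ,
      Fintype.card_fin, nsmul_eq_mul]
    ring

end Pool.Agent.Helper21.Girth4
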